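import Pool.Agent.helper37.F2.Spec2

/-!
# MP_26dbae_co, module TA: all rationals of `[0, 1)` are reached
-/

set_option autoImplicit false

namespace Pool.Agent.F2T

theorem TA : TA_stmt := by
  intro S h0 hs
  have key : ∀ n : ℕ, ∀ a : ℚ, a.den ≤ n → 0 ≤ a → a < 1 → S a := by
    intro n
    induction n with
    | zero =>
      intro a ha
      have := a.pos
      omega
    | succ n ih =>
      intro a ha ha0 ha1
      rcases ha0.eq_or_lt with h | h
      · rw [← h]
        exact h0
      · have hx1 : 1 < 1 / a := by
          rw [lt_div_iff₀ h]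
          linarith
        have hx0 : 0 < 1 / a := by linarith
        obtain ⟨c, hc⟩ : ∃ c : ℤ, c = ⌈1 / a⌉ := ⟨_, rfl⟩
        have hc1 : 1 / a ≤ (c : ℚ) := by rw [hc]; exact Int.le_ceil _
        have hc2 : (c : ℚ) < 1 / a + 1 := by rw [hc]; exact Int.ceil_lt_add_one _
        have hc3 : 2 ≤ c := by
          have : 1 < c := by
            rw [hc, Int.lt_ceil]
            exact_mod_cast hx1
          omega
        have hnum : 0 < a.num := Rat.num_pos.mpr h
        have hnd : a.num < (a.den : ℤ) := by
          exact Rat.num_lt_denom_iff.mpr ha1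
        have hP : (0 : ℚ) < (a.num : ℚ) := by exact_mod_cast hnum
        have hQ : (0 : ℚ) < (a.den : ℚ) := by exact_mod_cast a.pos
        have hinv : 1 / a = (a.den : ℚ) / (a.num : ℚ) := by
          have h1 : (a.num : ℚ) / (a.den : ℚ) = a := Rat.num_div_den a
          rw [← h1, one_div, inv_div]
          rw [h1]
        have ha1' : (c : ℚ) - 1 / a = ((c * a.num - a.den : ℤ) : ℚ) / ((a.num : ℤ) : ℚ) := by
          rw [hinv]
          push_cast
          field_simp
        have hden : ((c : ℚ) - 1 / a).den ≤ n := by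
          have h1 : ((((c : ℚ) - 1 / a).den : ℕ) : ℤ) ∣ a.num := by
            rw [ha1', ← Rat.divInt_eq_div]
            exact Rat.den_dvd _ _
          have h2 := Int.le_of_dvd hnum h1
          omega
        have hS := ih ((c : ℚ) - 1 / a) hden (by linarith) (by linarith)
        have ht : (((c - 1).toNat : ℕ) : ℚ) = (c : ℚ) - 1 := by
          have h1 : (((c - 1).toNat : ℕ) : ℤ) = c - 1 := Int.toNat_of_nonneg (by omega)
          have h2 : ((((c - 1).toNat : ℕ) : ℤ) : ℚ) = ((c - 1 : ℤ) : ℚ) := by rw [h1]
          push_cast at h2 ⊢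
          exact h2
        have h3 := hs ((c : ℚ) - 1 / a) (c - 1).toNat (by linarith) (by linarith) (by omega) hS
        rw [ht] at h3
        have h4 : 1 / ((c : ℚ) - 1 + 1 - ((c : ℚ) - 1 / a)) = a := by
          have h5 : (c : ℚ) - 1 + 1 - ((c : ℚ) - 1 / a) = 1 / a := by ring
          rw [h5, one_div_one_div]
        rw [h4] at h3
        exact h3
  intro a ha0 ha1
  exact key a.den a le_rfl ha0 ha1

end Pool.Agent.F2T
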